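import Pool.Agent.TH771.CK.Fin
import Pool.Agent.W900.CH.NELev

/-!
# Cook and Karp-Levin completeness relative to all oracles near a random oracle

An adversary who knows the random oracle `O` changes, for all large `n`, at most `g n` of the
strings of length at most `n`; the result is the oracle `A` (`Close g O A`).

(1) If for every `ε > 0` there are infinitely many `n` with `g n ≤ 2 ^ (n ^ ε)` then, for almost
every `O` and for every such `A`, some set is complete for `NP^A` under reductions with two adaptive
questions, so Turing complete (Cook), but not under reductions with one question (whose answer may be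
evaluated in any way), so not many-one complete (Karp-Levin).

(2) Otherwise every oracle `O` (and not only almost every one) has such an `A` relative to which all
sets in `NP^A` are complete under reductions with one question, and, except for the empty set and the
set of all strings, many-one complete.

The proof of (1). With `Hs c A = {x : some w of length |x| has (c, x ++ w) encoded in A}` and a set
`K` complete for `NP^A`, the set `D = 0 Hs 6 ∪ 10 (Hs 6 ∩ K) ∪ 11 (Hs 6 ∪ K)` is complete under two
adaptive questions. Relative to an oracle without changes `Hs 5` is not reducible to `D` with one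
question, and the probability that one algorithm errs at no string of length `n` is doubly
exponentially small (`2 ^ (- 2 ^ j)` for the lengths `n = poly j`); so the set of the bad oracles is
so thin that it is met by no oracle near a typical oracle (`W900/CH`). The doubly exponential bound
comes from `2 ^ (4 j)` inputs which are independent unless the reduction asks the same strings.
-/

set_option autoImplicit false

namespace Pool.Agent.Results.MP_675993_lc.ChangedStrings

open Pool.Agent.H628R3.RO
open Pool.Agent.H673R2.OneTT (Red1tt Red2T RedT)
open Pool.Agent.W900.CH (Close)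
open Pool.Agent.TH771.CK (Complete)
open MeasureTheory Filter

theorem result (g : ℕ → ℝ) :
    ((∀ ε : ℝ, 0 < ε → ∃ᶠ n : ℕ in atTop, g n ≤ 2 ^ (n : ℝ) ^ ε) →
      ∀ᵐ O ∂randomOracle, ∀ A : Oracle, Close g O A →
        ∃ D : Set (List Bool), D.Nonempty ∧ Dᶜ.Nonempty ∧
          Complete A Red2T D ∧ Complete A RedT D ∧ ¬ Complete A Red1tt D ∧ ¬ Complete A Red D) ∧
    ((¬ ∀ ε : ℝ, 0 < ε → ∃ᶠ n : ℕ in atTop, g n ≤ 2 ^ (n : ℝ) ^ ε) →
      ∀ O : Oracle, ∃ A : Oracle, Close g O A ∧ ∀ D : Set (List Bool), IsNP A D →
        Complete A Red1tt D ∧ (D.Nonempty → Dᶜ.Nonempty → Complete A Red D)) := by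
  refine ⟨fun hg => ?_, fun hg O => ?_⟩
  · filter_upwards [Pool.Agent.TH771.CK.ae_far_RX hg] with O hO A hA
    exact Pool.Agent.TH771.CK.side_one (hO A hA)
  · obtain ⟨A, hA, h⟩ := Pool.Agent.W900.CH.exists_close_PSPACE hg O
    exact ⟨A, hA, fun D hD => Pool.Agent.TH771.CK.side_two
      (fun L hL => Pool.Agent.TH771.CK.p_of_pspace h hL) hD⟩

end Pool.Agent.Results.MP_675993_lc.ChangedStrings
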