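import Pool.Agent.TH680.KC.Law
import Pool.Agent.TH680.ND.Law
import Pool.Agent.TH680.NX.Above

/-!
# Cook and Karp completeness relative to random oracles: the thresholds for sparse sets

The strings `x` are put into the oracle `A` independently, with a probability `q |x|` that depends on
the length only, where `q` is an arbitrary function (`rand q` is the distribution of `A`). Let
`rare q n = 2 ^ n * min (q n) (1 - q n)`, the expected number of the strings of length `n` for which
`A` has the less probable value.

(1) If the series `∑ rare q` diverges then, for every oracle `Q` and almost all `A`, no sparse set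
(in `NP` or not) is hard for `NP` under bounded truth-table reductions relative to `Q ⊕ A`; so none
is Karp-hard.

(2) If the series converges then, for some `Q` and almost all `A`, some finite set is Karp-complete
for `NP` relative to `Q ⊕ A`.

(3) If `rare q` is bounded by a polynomial then, for some `Q` and almost all `A`, some tally set is
Cook-complete and not Karp-complete for `NP` relative to `Q ⊕ A`; if moreover the series diverges
(then `P ≠ NP`) this tally set is not even hard under bounded truth-table reductions.

So the statement that Cook and Karp completeness differ is almost surely true for the random oracles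
with polynomially bounded `rare q`, and the threshold for sparse Karp-complete sets (convergence of
the series) is different from the threshold for sparse Cook-complete sets (`rare q` bounded by a
polynomial, the hand-in `MP_69a69c_lc.DensityThreshold`).

The proof of (1). For a length `N` consider `2 ^ n` groups of `k` strings of length `N`, `n ≥ √N`; a
group is a witness if all its bits are the less probable ones. The numbers `n` and `k` are such that
the expected number of the witnesses is at most `1 / 2` and at least `min (rare q N) (1 / 4)`. The
language `L` in `NP`: is there a witness at or below `u` (in the order of the binary numbers)?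
Suppose that there is no witness. If a reduction with `k` questions to a set with at most `c`
elements (which may depend on the oracle) is right after the group `w` has been made a witness, for
more than three quarters of the `w`, then there are `m` bounds `u` and `m + 1` witnesses `w` between
them that are not asked for, such that the truth tables for the bounds decide the order for all
these `w`. Each question set meets one of the `2 c` elements of the sets for the first and the last
`w`; so one string is common to many questions, and one can fix its value and pass to a part of the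
chain with `k - 1` questions: `m ≤ (4 c + 1) ^ k`. (This is in the style of the theorem of Ogiwara
and Watanabe, but for information instead of computation.) By the engine `TH680.OR.ae_often` the
reduction is wrong for infinitely many lengths.
-/

set_option autoImplicit false

namespace Pool.Agent.Results.MP_675993_lc.DensityThreshold

open MeasureTheory Pool.Agent.NPC Pool.Agent.H620R2.Gauge Pool.Agent.H622R2
open Pool.Agent.W900.IE (indep)

/-- The distribution of the random oracle: the strings `x` are in the oracle with probability
`q |x|`, independently. -/
noncomputable def rand (q : ℕ → unitInterval) : Measure Oracle := indep (fun x => q x.length)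

/-- The expected number of the strings of length `n` for which the random oracle has the less
probable value. -/
noncomputable def rare (q : ℕ → unitInterval) (n : ℕ) : ℝ := 2 ^ n * min (q n : ℝ) (1 - q n)

/-- The function `rare q` is bounded by a polynomial. -/
def Bounded (q : ℕ → unitInterval) : Prop := ∃ c : ℕ, ∀ n : ℕ, rare q n ≤ (n : ℝ) ^ c + c

/-- The oracle of the more probable values. -/
noncomputable def common (q : ℕ → unitInterval) : Oracle := fun x =>
  decide ((1 / 2 : ℝ) < q x.length)

/-- The disjoint union of the oracles `Q` and `A`. -/
def join (Q A : Oracle) : Oracle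
  | [] => false
  | false :: z => Q z
  | true :: z => A z

/-- The set `S` is sparse: it has at most `p n` elements of length at most `n`, for a
polynomial `p`. -/
def Sparse (S : Oracle) : Prop :=
  ∃ p : Polynomial ℕ, ∀ n, {x : List Bool | S x = true ∧ x.length ≤ n}.ncard ≤ p.eval n

/-- The elements of `S` are strings of ones. -/
def Tally (S : Oracle) : Prop := ∀ x, S x = true → x = List.replicate x.length true

/-- The set `S` is hard for `NP` under Cook reductions relative to the oracle `O`. -/
def CookHard (O S : Oracle) : Prop := ∀ L, IsNP O L → IsP (join O S) L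

/-- The set `S` is complete for `NP` under Cook reductions relative to the oracle `O`. -/
def CookComplete (O S : Oracle) : Prop := IsNP O {x | S x = true} ∧ CookHard O S

/-- The set `S` is hard for `NP` under Karp reductions relative to the oracle `O`. -/
def KarpHard (O S : Oracle) : Prop :=
  ∀ L, IsNP O L → ∃ f : List Bool → List Bool, IsFP O f ∧ ∀ x, x ∈ L ↔ S (f x) = true

/-- The set `S` is complete for `NP` under Karp reductions relative to the oracle `O`. -/
def KarpComplete (O S : Oracle) : Prop := IsNP O {x | S x = true} ∧ KarpHard O S

/-- The set `S` is hard for `NP` under bounded truth-table reductions relative to the oracle `O`: for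
every `L` in `NP` there are a number `k` and a function `F` in polynomial time, such that `F x` is
the code of a list `qs` of at most `k` questions and of a list `tt` of answer vectors, and `x` is in
`L` if and only if the vector of the right answers to the questions is in the list `tt`. -/
def BttHard (O S : Oracle) : Prop :=
  ∀ L, IsNP O L → ∃ (k : ℕ) (F : List Bool → List Bool), IsFP O F ∧
    ∀ x, ∃ qs tt : List (List Bool), F x = bits (qs, tt) ∧ qs.length ≤ k ∧
      (x ∈ L ↔ qs.map S ∈ tt)

theorem join_eq : TH680.OD.join = join := by
  funext Q A x
  rcases x with _ | ⟨b, z⟩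
  · rfl
  · cases b <;> rfl

theorem dev_eq (q : ℕ → unitInterval) : W900.IE.dev (TH680.DT.pq q) = rare q := by
  funext n
  unfold W900.IE.dev TH680.DT.pq rare
  have h : ∀ v : Fin n → Bool, min (q (List.ofFn v).length : ℝ) (1 - q (List.ofFn v).length) =
      min (q n : ℝ) (1 - q n) := fun v => by rw [List.length_ofFn]
  rw [Finset.sum_congr rfl fun v _ => h v, Finset.sum_const, nsmul_eq_mul, Finset.card_univ]
  simp

theorem poly_join {E : List Bool → Bool} (hE : Poly E) (b : Bool) :
    Poly (fun x : List Bool => decide (x.head? = some b) && E x.tail) :=
  Poly.and (Poly.decide_eq (Poly.head? Poly.id) (NPC.Poly.const _)) (hE.comp (Poly.tail Poly.id))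

theorem join_xor (Q : Oracle) {A D : Oracle} {E : List Bool → Bool}
    (h : ∀ x, D x = (A x ^^ E x)) (x : List Bool) :
    join Q D x = (join Q A x ^^ (decide (x.head? = some true) && E x.tail)) := by
  rcases x with _ | ⟨b, z⟩
  · rfl
  · cases b with
    | false => simp [join]
    | true =>
      show D z = _
      rw [h]
      simp [join]

theorem same_np {O O' : Oracle} {E : List Bool → Bool} (hE : Poly E)
    (h : ∀ x, O' x = (O x ^^ E x)) (L : Set (List Bool)) :
    (IsNP O L ↔ IsNP O' L) ∧ (IsP O L ↔ IsP O' L) := by
  have h1 := TH680.DT.same_isFP hE h
  refine ⟨?_, ?_⟩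
  · unfold IsNP
    simp only [h1]
  · unfold IsP
    simp only [h1]

theorem karp_btt {O S : Oracle} (h : KarpHard O S) : BttHard O S := by
  intro L hL
  obtain ⟨f, hf, h1⟩ := h L hL
  have h2 : Poly (fun z : List Bool => bits (([z], [[true]]) : List (List Bool) ×
      List (List Bool))) :=
    R2.poly_bits (Poly.pair (Poly.cons Poly.id (NPC.Poly.const [])) (NPC.Poly.const [[true]]))
  have h3 : IsFP O (fun x => bits (([f x], [[true]]) : List (List Bool) × List (List Bool))) :=
    W900.IE.isFP_postcomp (h := fun z : List Bool => bits (([z], [[true]]) : List (List Bool) ×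
      List (List Bool))) hf h2
  refine ⟨1, _, h3, fun x => ⟨[f x], [[true]], rfl, by simp, ?_⟩⟩
  rw [h1 x]
  simp

/-- **Cook and Karp completeness relative to random oracles.** -/
theorem result (q : ℕ → unitInterval) :
    (¬ Summable (rare q) → ∀ Q : Oracle, ∀ᵐ A ∂(rand q), ∀ S, Sparse S →
      ¬ BttHard (join Q A) S ∧ ¬ KarpHard (join Q A) S) ∧
    (Summable (rare q) → ∃ Q : Oracle, ∀ᵐ A ∂(rand q), ∃ S : Oracle,
      {x | S x = true}.Finite ∧ KarpComplete (join Q A) S) ∧
    (Bounded q → ∃ Q : Oracle, ∀ᵐ A ∂(rand q), ∃ S, Tally S ∧ CookComplete (join Q A) S ∧
      ¬ KarpComplete (join Q A) S ∧ (¬ Summable (rare q) → ¬ BttHard (join Q A) S)) := by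
  have h1 : ¬ Summable (rare q) → ∀ Q : Oracle, ∀ᵐ A ∂(rand q), ∀ S, Sparse S →
      ¬ BttHard (join Q A) S ∧ ¬ KarpHard (join Q A) S := by
    intro h Q
    have h2 := TH680.KC.ae_btt (q := q) h Q
    rw [join_eq] at h2
    filter_upwards [h2] with A hA
    obtain ⟨L, hL, hA⟩ := hA
    rintro S ⟨p, hS⟩
    have h3 : ¬ BttHard (join Q A) S := by
      intro h3
      obtain ⟨k, F, h4, h5⟩ := h3 L hL
      exact hA S p hS k ⟨F, h4, h5⟩
    exact ⟨h3, fun h4 => h3 (karp_btt h4)⟩
  obtain ⟨Q, hQ, hNP⟩ := TH680.ND.exists_above2 (C := TH680.ND.cm q) (fun x y hxy => by
    unfold TH680.ND.cm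
    rw [hxy])
  have h2 : Summable (rare q) → ∀ᵐ A ∂(rand q), ∀ L, IsNP (join Q A) L → IsP (join Q A) L := by
    intro h
    rw [← dev_eq] at h
    filter_upwards [TH680.DT.ae_same h] with A hA
    have hx : ∀ x, common q x = (A x ^^ (A x ^^ common q x)) := fun x => by
      cases A x <;> cases common q x <;> rfl
    intro L hL
    have h3 := same_np (poly_join hA true) (join_xor Q hx) L
    rw [h3.2]
    rw [h3.1] at hL
    have h5 := hNP L
    rw [join_eq] at h5
    apply h5
    have h4 : Pool.Agent.H591R3.PHG.IsSig (join Q (TH680.ND.cm q)) 1 L := hL
    exact h4.isPH.isPSPACE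
  refine ⟨h1, fun h => ⟨Q, ?_⟩, fun h => ⟨Q, ?_⟩⟩
  · filter_upwards [h2 h] with A hA
    refine ⟨fun x => decide (x = [true]), ?_, ?_, ?_⟩
    · refine (Set.finite_singleton [true]).subset fun x hx => ?_
      simpa using hx
    · refine ⟨fun z => (unpair z).2, 0, IsFP.of_poly W900.IE.poly_u2, fun x => ?_⟩
      constructor
      · intro hx
        refine ⟨[], by simp, ?_⟩
        simp only [unpair_pairBits]
        simpa using hx
      · rintro ⟨w, _, hw⟩
        simp only [unpair_pairBits] at hw
        simpa using hw
    · intro L hL
      obtain ⟨V, hV, h3⟩ := hA L hL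
      exact ⟨V, hV, fun x => by rw [h3 x]; simp⟩
  · by_cases hs : Summable (rare q)
    · filter_upwards [h2 hs] with A hA
      refine ⟨fun _ => false, fun x hx => by simp at hx, ⟨?_, ?_⟩, ?_, fun h3 => absurd hs h3⟩
      · exact ⟨fun _ => [], 0, IsFP.of_poly (NPC.Poly.const []), fun x => by simp⟩
      · intro L hL
        obtain ⟨V, hV, h3⟩ := hA L hL
        refine ⟨V, ?_, h3⟩
        have h4 := TH680.NX.isFP_fst (join Q A) (fun _ => false)
        rw [join_eq] at h4
        exact TH680.DT.isFP_subst h4 hV
      · rintro ⟨_, h3⟩
        obtain ⟨f, _, h4⟩ := h3 Set.univ ⟨fun _ => [true], 0,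
          IsFP.of_poly (NPC.Poly.const [true]), fun x => by simp⟩
        have h5 := (h4 []).1 (Set.mem_univ _)
        simp at h5
    · obtain ⟨c, hc⟩ := h
      have h3 := TH680.ND.ae_pair hc hQ
      filter_upwards [h3, h1 hs Q] with A hA hB
      obtain ⟨N₀, hA⟩ := hA
      classical
      set S : Oracle := fun x => decide (x ∈ TH680.ND.tl (2 * c + 2) N₀ true
        (TH680.OD.join Q A)) with hS
      have hT : Tally S := by
        intro x hx
        rw [hS, decide_eq_true_eq] at hx
        exact TH680.ND.tl_tally hx
      have hSp : Sparse S := by
        refine ⟨Polynomial.X + 1, fun n => ?_⟩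
        have h4 : {x : List Bool | S x = true ∧ x.length ≤ n} ⊆
            ((Finset.range (n + 1)).image (fun i => List.replicate i true) :
              Finset (List Bool)) := by
          rintro x ⟨hx, hxn⟩
          rw [Finset.mem_coe, Finset.mem_image]
          exact ⟨x.length, Finset.mem_range.2 (by omega), (hT x hx).symm⟩
        refine (Set.ncard_le_ncard h4 (Finset.finite_toSet _)).trans ?_
        rw [Set.ncard_coe_finset]
        refine Finset.card_image_le.trans ?_
        rw [Finset.card_range]
        simp
      refine ⟨S, hT, ⟨?_, ?_⟩, fun h4 => (hB S hSp).2 h4.2, fun _ => (hB S hSp).1⟩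
      · have h5 := TH680.ND.isNP_tl (2 * c + 2) N₀ true (TH680.OD.join Q A)
        have h6 : {x : List Bool | S x = true} = TH680.ND.tl (2 * c + 2) N₀ true
            (TH680.OD.join Q A) := by
          ext x
          simp [hS]
        rw [h6, ← join_eq]
        exact h5
      · intro L hL
        rw [← join_eq] at hL ⊢
        refine TH680.ND.hard_tally hQ (fun L hL => hNP L ?_) (t := 2 * c + 2) (N₀ := N₀)
          (fun x hx => decide_eq_true hx) (fun x hx => decide_eq_false fun h => hA x h hx) hL
        have h4 : Pool.Agent.H591R3.PHG.IsSig (TH680.OD.join Q (TH680.ND.cm q)) 1 L := hL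
        exact h4.isPH.isPSPACE

end Pool.Agent.Results.MP_675993_lc.DensityThreshold
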