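import Pool.Agent.H673R2.OneTT.Sep5

set_option autoImplicit false

/-!
# Relative to a random oracle, one question is not more than none, and two questions are

For almost every oracle `A` (every string is in `A` with probability `1/2`, independently), with
`NP`, `P` and all reductions relative to `A`:

* every set which is complete for `NP` under Turing reductions with one question (one question to
  the set, the answer may be evaluated in any way) is complete under many-one reductions, even under
  one-one, length-increasing ones;
* there is a set in `NP` which is complete under Turing reductions with two questions (the second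
  may depend on the answer to the first), and is not complete under Turing reductions with one
  question; in particular it is `≤_T^P`-complete, but not `≤_m^P`-complete.

The proof is by helper673 of an earlier round (`Pool.Agent.H673R2.OneOne`,
`Pool.Agent.H673R2.OneTT`).
-/

namespace Pool.Agent.Results.MP_675993_lc.OneTwoQuestions

open Pool.Agent.H628R3.RO
open Pool.Agent.H673R2.OneOne (Red1)
open Pool.Agent.H673R2.OneTT (Red1tt Red2T RedT)

/-- `B` is in `NP` relative to `A`, and every set in `NP` relative to `A` reduces to it. -/
def Complete (A : Oracle) (R : Oracle → Set (List Bool) → Set (List Bool) → Prop)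
    (B : Set (List Bool)) : Prop :=
  IsNP A B ∧ ∀ L, IsNP A L → R A L B

/-- **Cook and Karp-Levin completeness relative to a random oracle: the exact number of
questions.** -/
theorem result : ∀ᵐ A ∂randomOracle,
    (∀ B, Complete A Red1tt B → Complete A Red B ∧ Complete A Red1 B) ∧
    ∃ D, Complete A Red2T D ∧ Complete A RedT D ∧ ¬ Complete A Red1tt D ∧ ¬ Complete A Red D := by
  filter_upwards [Pool.Agent.H673R2.OneOne.ae_Good, Pool.Agent.H673R2.OneTT.ae_NB,
    Pool.Agent.H673R2.OneTT.ae_not_red] with A hA hN hS
  have h1 : ∀ B, Complete A Red1tt B → Complete A Red B ∧ Complete A Red1 B := by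
    rintro B ⟨hB, hB'⟩
    have h2 : ∀ L, IsNP A L → Red1 A L B := fun L hL =>
      Pool.Agent.H673R2.OneTT.one_question hA hN hB hB' hL
    refine ⟨⟨hB, fun L hL => ?_⟩, hB, h2⟩
    obtain ⟨F, hF, -, -, hL'⟩ := h2 L hL
    exact ⟨F, hF, hL'⟩
  have h3 : ¬ Complete A Red (Pool.Agent.H673R2.OneTT.DD A) := fun h =>
    hS (h.2 _ (Pool.Agent.H673R2.OneTT.isNP_Hs A 5))
  exact ⟨h1, Pool.Agent.H673R2.OneTT.DD A,
    ⟨Pool.Agent.H673R2.OneTT.isNP_DD A, fun L hL => Pool.Agent.H673R2.OneTT.red2T_DD hL⟩,
    ⟨Pool.Agent.H673R2.OneTT.isNP_DD A, fun L hL =>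
      Pool.Agent.H673R2.OneTT.RedT.of_two (Pool.Agent.H673R2.OneTT.red2T_DD hL)⟩,
    fun h => h3 (h1 _ h).1, h3⟩

end Pool.Agent.Results.MP_675993_lc.OneTwoQuestions
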