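import Pool.Agent.TH654.RB.SP7
import Pool.Agent.TH680.ND.Law
import Pool.Agent.TH678.PC.Few2
import Pool.Agent.TH678.PC.Adv3

/-!
# Cook and Karp completeness near a suitable oracle

An adversary who knows the oracle `O` changes, for all large `n`, at most `g n` of the strings of
length at most `n`; the result is the oracle `A` (`Close g O A`).

(1) There is an oracle `O` such that, whenever `g` is polynomially bounded, relative to EVERY such
oracle `A` some tally set in `NP` is hard for `PSPACE` under truth-table reductions, and some tally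
set is complete for `NP` under truth-table reductions (so also under Cook reductions) but not under
Karp reductions; if moreover `P ≠ NP` relative to `A`, it is not even hard under bounded truth-table
reductions.

(2) For every `g` tending to infinity, however slowly, this `O` can be changed in this way into an
oracle `A` relative to which `NP ≠ coNP` and some tally set is complete for `NP` under truth-table
reductions, and under Cook reductions, but not under bounded truth-table reductions.

(3) If `g` is not polynomially bounded then every oracle `O` can be changed in this way into an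
oracle `A` relative to which no sparse set is hard for `NP` under Cook reductions.

The proof of (1). The oracle `O` contains the answers to all questions of the following form, where
`L` is in `PSPACE`: is `x` in `L` relative to the oracle `O` changed on the strings of the list `l`?
They are written in a code that can be read in spite of polynomially many changes (`TH678/EL`). The
tally set contains the numbers of the triples `(n, k, j)` for which there is a sorted list of `k`
changed strings of length at most `n`, such that the bit `j` of the code of the list is one. From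
polynomially many questions asked at the same time one finds the number `k` of all the changed
strings of length at most `n` (it is the greatest `k` such that `(n, k, 0)` is in the set) and then
their sorted list. For the second half, the tree of the partial witnesses is pruned with the values of the reduction (Berman's method;
for bounded truth-table reductions to a tally set there are only polynomially many values in normal
form).
-/

set_option autoImplicit false

namespace Pool.Agent.Results.MP_675993_lc.PolynomiallyManyChanges

open Pool.Agent.NPC Pool.Agent.H620R2.Gauge Pool.Agent.H622R2 Filter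
open Pool.Agent.W900.CH (Close)

/-- The function `g` is polynomially bounded. (For nondecreasing `g`: `g n ≤ n ^ c` for some `c` and
all large `n`.) -/
def PolyBounded (g : ℕ → ℝ) : Prop := ∃ c : ℕ, ∀ᶠ n : ℕ in atTop, ∃ m ≥ n, g m ≤ (n : ℝ) ^ c

/-- The disjoint union of the oracles `O` and `S`. -/
def join (O S : Oracle) : Oracle
  | [] => false
  | false :: z => O z
  | true :: z => S z

/-- The set `S` is sparse: it has at most `p n` elements of length at most `n`, for a
polynomial `p`. -/
def Sparse (S : Oracle) : Prop :=
  ∃ p : Polynomial ℕ, ∀ n, {x : List Bool | S x = true ∧ x.length ≤ n}.ncard ≤ p.eval n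

/-- The elements of `S` are strings of ones. -/
def Tally (S : Oracle) : Prop := ∀ x, S x = true → x = List.replicate x.length true

/-- The set `S` is hard for `NP` under Cook reductions relative to the oracle `O`. -/
def CookHard (O S : Oracle) : Prop := ∀ L, IsNP O L → IsP (join O S) L

/-- The set `S` is complete for `NP` under Cook reductions relative to the oracle `O`. -/
def CookComplete (O S : Oracle) : Prop := IsNP O {x | S x = true} ∧ CookHard O S

/-- The set `S` is hard for `NP` under Karp reductions relative to the oracle `O`. -/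
def KarpHard (O S : Oracle) : Prop :=
  ∀ L, IsNP O L → ∃ f : List Bool → List Bool, IsFP O f ∧ ∀ x, x ∈ L ↔ S (f x) = true

/-- The set `S` is complete for `NP` under Karp reductions relative to the oracle `O`. -/
def KarpComplete (O S : Oracle) : Prop := IsNP O {x | S x = true} ∧ KarpHard O S

/-- The language `L` is reduced to the set `S` by a truth-table reduction relative to the
oracle `O`: the code of a list of questions to `S` is computed from `x`, and then the answer from `x`
and the list of the right answers to the questions. -/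
def TtRed (O S : Oracle) (L : Set (List Bool)) : Prop :=
  ∃ Q E : List Bool → List Bool, IsFP O Q ∧ IsFP O E ∧
    ∀ x, ∃ qs : List (List Bool), Q x = bits qs ∧
      (x ∈ L ↔ E (pairBits x (qs.map S)) = [true])

/-- The set `S` is complete for `NP` under truth-table reductions relative to the oracle `O`. -/
def TtComplete (O S : Oracle) : Prop := IsNP O {x | S x = true} ∧ ∀ L, IsNP O L → TtRed O S L

/-- The set `S` is hard for `NP` under bounded truth-table reductions relative to the oracle `O`: for
every `L` in `NP` there are a number `k` and a function `F` in polynomial time, such that `F x` is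
the code of a list `qs` of at most `k` questions and of a list `tt` of answer vectors, and `x` is in
`L` if and only if the vector of the right answers to the questions is in the list `tt`. -/
def BttHard (O S : Oracle) : Prop :=
  ∀ L, IsNP O L → ∃ (k : ℕ) (F : List Bool → List Bool), IsFP O F ∧
    ∀ x, ∃ qs tt : List (List Bool), F x = bits (qs, tt) ∧ qs.length ≤ k ∧
      (x ∈ L ↔ qs.map S ∈ tt)

theorem join_eq (O S : Oracle) : W900.SP.join O S = join O S := by
  funext x
  rcases x with _ | ⟨b, z⟩
  · rfl
  · cases b <;> rfl

theorem join_eq' (O S : Oracle) : TH680.OD.join O S = join O S := by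
  funext x
  rcases x with _ | ⟨b, z⟩
  · rfl
  · cases b <;> rfl

theorem cook_of_tt {O S : Oracle} (h : TtComplete O S) : CookComplete O S :=
  ⟨h.1, fun L hL => by
    rw [← join_eq]
    exact TH654.RB.cook_of_tt (h.2 L hL)⟩

theorem karp_btt {O S : Oracle} (h : KarpHard O S) : BttHard O S := by
  intro L hL
  obtain ⟨f, hf, h1⟩ := h L hL
  have h2 : Poly (fun z : List Bool => bits (([z], [[true]]) : List (List Bool) ×
      List (List Bool))) :=
    R2.poly_bits (Poly.pair (Poly.cons Poly.id (NPC.Poly.const [])) (NPC.Poly.const [[true]]))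
  refine ⟨1, _, IsFP.comp (IsFP.of_poly h2) hf, fun x => ⟨[f x], [[true]], rfl, by simp, ?_⟩⟩
  rw [h1 x]
  simp

/-- the empty set is not hard under Karp reductions -/
theorem not_karp_empty (O : Oracle) : ¬ KarpComplete O (fun _ => false) := by
  rintro ⟨-, h⟩
  obtain ⟨f, -, h1⟩ := h Set.univ ⟨fun _ => [true], 0, IsFP.of_poly (NPC.Poly.const _), fun x =>
    ⟨fun _ => ⟨[], by simp, rfl⟩, fun _ => trivial⟩⟩
  exact Bool.false_ne_true ((h1 []).1 trivial)

/-- the language with the first part of the input -/
theorem advice_of_isP {O : Oracle} {L : Set (List Bool)} (h : IsP O L) :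
    WithAdvice (IsP O) L := by
  obtain ⟨F, hF, h⟩ := h
  refine ⟨{z | (unpair z).1 ∈ L}, fun _ => [], 0, ⟨fun z => F (unpair z).1,
    IsFP.comp hF (IsFP.of_poly (Poly.fst poly_unpair)), fun z => h _⟩, fun _ => by simp,
    fun x => ?_⟩
  show x ∈ L ↔ (unpair (pairBits x [])).1 ∈ L
  rw [unpair_pairBits]

theorem compl_isP {O : Oracle} {L : Set (List Bool)} (h : IsP O L) : IsP O Lᶜ := by
  obtain ⟨F, hF, h⟩ := h
  refine ⟨fun x => if F x = [true] then [] else [true], IsFP.comp (IsFP.of_poly (F := fun z =>
    if z = [true] then [] else [true]) (Poly.ite (Poly.decide_eq Poly.id (NPC.Poly.const _))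
      (NPC.Poly.const _) (NPC.Poly.const _))) hF, fun x => ?_⟩
  rw [Set.mem_compl_iff, h x]
  by_cases h1 : F x = [true]
  · simp [h1]
  · simp [h1]

/-- sparse sets are advice -/
theorem advice_of_sparse {O S : Oracle} (hS : Sparse S) {L : Set (List Bool)}
    (h : IsP (join O S) L) : WithAdvice (IsP O) L := by
  obtain ⟨p, hp⟩ := hS
  have h5 : WithAdvice (IsP (TH680.OD.join O S)) L := by
    rw [join_eq']
    exact advice_of_isP h
  obtain ⟨L'', a', r', h6, h7, h8⟩ := (TH680.NPP.ppoly_iff (TH680.ND.sparseS_join hp O) L).1 h5
  refine ⟨L'', a', r', ?_, h7, h8⟩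
  obtain ⟨V, hV, h9⟩ := h6
  refine ⟨V, TH680.DT.isFP_subst ?_ hV, h9⟩
  have h10 := IsFP.tt (A := O) (Q := fun q => [q.tail])
    (H := fun p => [decide (p.1.head? = some false) && p.2.head?.getD false])
    (Poly.cons (Poly.tail Poly.id) (NPC.Poly.const []))
    (Poly.cons (Poly.and (Poly.decide_eq (Poly.head? (Poly.fst Poly.id)) (NPC.Poly.const _))
      (Poly.head?_getD (Poly.snd Poly.id) false)) (NPC.Poly.const []))
  have h11 : (fun q => [TH680.OD.join O TH680.ND.emp q]) = fun q =>
      [decide (q.head? = some false) && ((List.map O [q.tail]).head?.getD false)] := by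
    funext q
    rw [join_eq']
    rcases q with _ | ⟨b, z⟩
    · simp [join]
    · cases b <;> simp [join, TH680.ND.emp]
  rw [h11]
  exact h10

/-- the first half, for one oracle `A` -/
theorem sep {O A : Oracle} (h1 : IsNP A {u | TH654.RB.TT O A u = true})
    (h2 : ∀ L, IsPSPACE A L → TtRed A (TH654.RB.TT O A) L) :
    ((∃ L, IsNP A L ∧ ¬ IsP A L) → TtComplete A (TH654.RB.TT O A) ∧
      ¬ BttHard A (TH654.RB.TT O A)) ∧
    ∃ S, Tally S ∧ TtComplete A S ∧ CookComplete A S ∧ ¬ KarpComplete A S ∧
      ((∃ L, IsNP A L ∧ ¬ IsP A L) → ¬ BttHard A S) := by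
  have h3 : TtComplete A (TH654.RB.TT O A) := ⟨h1, fun L hL => h2 L (by
    have h4 : Pool.Agent.H591R3.PHG.IsSig A 1 L := hL
    exact h4.isPH.isPSPACE)⟩
  have h4 : (∃ L, IsNP A L ∧ ¬ IsP A L) → ¬ BttHard A (TH654.RB.TT O A) := by
    rintro ⟨L, hL, hLn⟩ hcon
    exact hLn (TH654.RB.isP_of_btt (TH654.RB.tally_TT O A) hcon hL)
  refine ⟨fun h => ⟨h3, h4 h⟩, ?_⟩
  by_cases h : ∃ L, IsNP A L ∧ ¬ IsP A L
  · exact ⟨_, TH654.RB.tally_TT O A, h3, cook_of_tt h3, fun hcon => h4 h (karp_btt hcon.2), h4⟩
  · have h5 : ∀ L, IsNP A L → IsP A L := fun L hL => by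
      by_contra hn
      exact h ⟨L, hL, hn⟩
    have h6 : TtComplete A (fun _ => false) := by
      refine ⟨⟨fun _ => [], 0, IsFP.of_poly (NPC.Poly.const _), fun x => ?_⟩, fun L hL =>
        TH654.RB.tt_of_isP (h5 L hL)⟩
      constructor
      · intro hx
        exact absurd (show false = true from hx) Bool.false_ne_true
      · rintro ⟨w, -, hw⟩
        exact absurd hw (by simp)
    exact ⟨fun _ => false, fun x hx => absurd hx Bool.false_ne_true, h6, cook_of_tt h6,
      not_karp_empty A, fun h' => absurd h' h⟩

/-- **Cook and Karp completeness near a suitable oracle.** -/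
theorem result :
    (∃ O : Oracle,
      (∀ g : ℕ → ℝ, PolyBounded g → ∀ A, Close g O A →
        (∃ S, Tally S ∧ IsNP A {x | S x = true} ∧ ∀ L, IsPSPACE A L → TtRed A S L) ∧
        (∃ S, Tally S ∧ TtComplete A S ∧ CookComplete A S ∧ ¬ KarpComplete A S ∧
          ((∃ L, IsNP A L ∧ ¬ IsP A L) → ¬ BttHard A S))) ∧
      (∀ g : ℕ → ℝ, Tendsto g atTop atTop → ∃ A, Close g O A ∧ (∃ L, IsNP A L ∧ ¬ IsNP A Lᶜ) ∧
        ∃ S, Tally S ∧ TtComplete A S ∧ CookComplete A S ∧ ¬ KarpComplete A S ∧
          ¬ BttHard A S)) ∧
    (∀ g : ℕ → ℝ, ¬ PolyBounded g → ∀ O : Oracle, ∃ A, Close g O A ∧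
      ∀ S, Sparse S → ¬ CookHard A S) := by
  refine ⟨?_, fun g hg O => ?_⟩
  · obtain ⟨O, hO⟩ := TH654.RB.exists_tally
    have hall : ∀ g : ℕ → ℝ, PolyBounded g → ∀ A, Close g O A →
        IsNP A {u | TH654.RB.TT O A u = true} ∧
          ∀ L, IsPSPACE A L → TtRed A (TH654.RB.TT O A) L := fun g hg A hA =>
      hO A (TH678.PC.dist_poly hg hA)
    refine ⟨O, fun g hg A hA => ?_, fun g hg => ?_⟩
    · obtain ⟨h1, h2⟩ := hall g hg A hA
      exact ⟨⟨_, TH654.RB.tally_TT O A, h1, h2⟩, (sep h1 h2).2⟩
    · obtain ⟨g', hg'⟩ : ∃ g' : ℕ → ℝ, g' = fun n => min (g n) n := ⟨_, rfl⟩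
      have h1 : Tendsto g' atTop atTop := by
        rw [hg']
        exact tendsto_atTop_mono' atTop (Eventually.of_forall fun n => le_rfl)
          (tendsto_atTop_atTop.2 fun b => by
            obtain ⟨i, hi⟩ := tendsto_atTop_atTop.1 hg b
            obtain ⟨j, hj⟩ := exists_nat_ge b
            exact ⟨max i j, fun a ha => le_min (hi a (le_trans (le_max_left _ _) ha))
              (hj.trans (by exact_mod_cast le_trans (le_max_right _ _) ha))⟩)
      obtain ⟨A, hA, ⟨L, hL, hLc⟩, -⟩ := TH678.PC.exists_proper h1 O
      obtain ⟨h2, h3⟩ := hall g' ⟨1, by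
        filter_upwards with n
        exact ⟨n, le_rfl, by rw [hg', pow_one]; exact min_le_right _ _⟩⟩ A hA
      have h4 : ∃ L, IsNP A L ∧ ¬ IsP A L :=
        ⟨L, hL, fun h => hLc (IsP.isNP (compl_isP h))⟩
      refine ⟨A, ?_, ⟨L, hL, hLc⟩, ?_⟩
      · unfold Close at hA ⊢
        filter_upwards [hA] with n hn
        exact hn.trans (by rw [hg']; exact min_le_left _ _)
      · obtain ⟨S, a1, a2, a3, a4, a5⟩ := (sep h2 h3).2
        exact ⟨S, a1, a2, a3, a4, a5 h4⟩
  · obtain ⟨A, hA, L, hL, hLn⟩ := TH678.PC.many_adv hg O
    refine ⟨A, hA, fun S hS hcon => hLn ?_⟩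
    obtain ⟨L', a, r, h1, h2, h3⟩ := advice_of_sparse hS (compl_isP (hcon L hL))
    exact ⟨L', a, r, IsP.isNP h1, h2, h3⟩

end Pool.Agent.Results.MP_675993_lc.PolynomiallyManyChanges
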